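import Pool.Agent.ASE.Stmts5

/-!
# Squad ASE, row FWA: the sums `FWS` at `κ et`
-/

open scoped BigOperators

noncomputable section

namespace Pool.Agent.PP.SE.H18

open Pool.Agent.Helper51_AWC Pool.Agent.Helper79_WRA Pool.Agent.PP Pool.Agent.PP.KF
open Pool.Agent.PP.K9 Pool.Agent.PP.K9.H97 Pool.Agent.PP.H75 Pool.Agent.PP.T3 Pool.Agent.PP.SO
open Pool.Agent.PP.SD

attribute [local instance] Ideal.Quotient.field

section gen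

open Classical

theorem fif {α β : Type} [AddCommMonoid β] [Fintype α] (S : Set α) (f : α → β) :
    ∑ᶠ s ∈ S, f s = ∑ s, if s ∈ S then f s else 0 := by
  rw [finsum_eq_sum_of_fintype]
  exact Finset.sum_congr rfl fun s _ => finsum_eq_if

/-- a generated subgroup of a group of prime order -/
theorem clo {V₀ : Type} [CommGroup V₀] {ℓ : ℕ} [Fact ℓ.Prime] (a : Subgroup V₀)
    (ha : Nat.card a = ℓ) (S : Set V₀) (hS : ∀ x ∈ S, x ∈ a) :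
    (Subgroup.closure S = a ↔ ¬ ∀ x ∈ S, x = 1) := by
  have hp : ℓ.Prime := Fact.out
  have : Fact (Nat.card a).Prime := ⟨ha ▸ hp⟩
  have hle : Subgroup.closure S ≤ a := (Subgroup.closure_le a).2 hS
  have hab : a ≠ ⊥ := by
    intro h
    rw [h, Subgroup.card_bot] at ha
    exact hp.one_lt.ne ha
  constructor
  · intro h h1
    apply hab
    rw [← h, eq_bot_iff]
    refine (Subgroup.closure_le _).2 fun x hx => ?_
    rw [h1 x hx]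
    exact Subgroup.one_mem _
  · intro h
    have h2 := Subgroup.eq_bot_or_eq_top_of_prime_card ((Subgroup.closure S).subgroupOf a)
    rcases h2 with h2 | h2
    · exfalso
      apply h
      intro x hx
      have h3 : (⟨x, hS x hx⟩ : a) ∈ (Subgroup.closure S).subgroupOf a :=
        Subgroup.mem_subgroupOf.2 (Subgroup.subset_closure hx)
      rw [h2] at h3
      exact congrArg Subtype.val (Subgroup.mem_bot.1 h3)
    · exact le_antisymm hle (Subgroup.subgroupOf_eq_top.1 h2)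

variable {V₀ : Type} [CommGroup V₀] {n : ℕ}

/-- Möbius inversion with two exceptional subsets -/
theorem mb2 (mbi : MbiStmt) {A : Type} [Fintype A] (F : Set A → ℚ) (T P Q : Set A) (hP : P ⊆ T)
    (hQ : Q ⊆ T) :
    ∑ L, (if L ⊆ T ∧ ¬ L ⊆ P ∧ ¬ L ⊆ Q then mob F L else 0) = F T - F P - F Q + F (P ∩ Q) := by
  have h := (mbi A F).1
  rw [← h T, ← h P, ← h Q, ← h (P ∩ Q), fif, fif, fif, fif, ← Finset.sum_sub_distrib,
    ← Finset.sum_sub_distrib, ← Finset.sum_add_distrib]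
  refine Finset.sum_congr rfl fun L _ => ?_
  simp only [Set.mem_ofPred_eq, Set.subset_inter_iff]
  by_cases h1 : L ⊆ P
  · have h2 : L ⊆ T := h1.trans hP
    by_cases h3 : L ⊆ Q
    · rw [if_neg (by tauto), if_pos h2, if_pos h1, if_pos h3, if_pos ⟨h1, h3⟩]
      ring
    · rw [if_neg (by tauto), if_pos h2, if_pos h1, if_neg h3, if_neg (by tauto)]
      ring
  · by_cases h3 : L ⊆ Q
    · have h2 : L ⊆ T := h3.trans hQ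
      rw [if_neg (by tauto), if_pos h2, if_neg h1, if_pos h3, if_neg (by tauto)]
      ring
    · by_cases h2 : L ⊆ T
      · rw [if_pos ⟨h2, h1, h3⟩, if_pos h2, if_neg h1, if_neg h3, if_neg (by tauto)]
        ring
      · rw [if_neg (by tauto), if_neg h2, if_neg h1, if_neg h3, if_neg (by tauto)]
        ring

theorem pL_iff {ℓ : ℕ} [Fact ℓ.Prime] (a : Subgroup V₀) (ha : Nat.card a = ℓ)
    (L : Set (SO.SS n V₀)) (hL : ∀ s ∈ L, s.2.2.1 ∈ a) :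
    pL L = a ↔ ¬ ∀ s ∈ L, s.2.2.1 = 1 := by
  have h := clo (ℓ := ℓ) a ha {p | ∃ s ∈ L, s.2.2.1 = p} (by
    rintro x ⟨s, hs, rfl⟩
    exact hL s hs)
  refine h.trans (not_congr ⟨fun h1 s hs => h1 _ ⟨s, hs, rfl⟩, ?_⟩)
  rintro h1 x ⟨s, hs, rfl⟩
  exact h1 s hs

theorem aL_iff {ℓ : ℕ} [Fact ℓ.Prime] (a : Subgroup V₀) (ha : Nat.card a = ℓ) (κ : V₀)
    (L : Set (SO.SS n V₀)) (hL : ∀ s ∈ L, κ ^ (s.2.1 : ℕ) * s.2.2.1 ∈ a) :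
    aL κ L = a ↔ ¬ ∀ s ∈ L, κ ^ (s.2.1 : ℕ) * s.2.2.1 = 1 := by
  have h := clo (ℓ := ℓ) a ha {p | ∃ s ∈ L, κ ^ (s.2.1 : ℕ) * s.2.2.1 = p} (by
    rintro x ⟨s, hs, rfl⟩
    exact hL s hs)
  refine h.trans (not_congr ⟨fun h1 s hs => h1 _ ⟨s, hs, rfl⟩, ?_⟩)
  rintro h1 x ⟨s, hs, rfl⟩
  exact h1 s hs

theorem mem_pL (L : Set (SO.SS n V₀)) (s : SO.SS n V₀) (hs : s ∈ L) : s.2.2.1 ∈ pL L :=
  Subgroup.subset_closure ⟨s, hs, rfl⟩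

theorem ql_iff (E₀ : Subgroup (MulAut V₀)) (κ : V₀) (L : Set (SO.SS n V₀))
    (w : MulAut V₀ × V₀) : w ∈ QL E₀ (LT (TL κ L)) ↔ w.1 ∈ E₀ ∧ ∀ s ∈ L,
      w.1 (κ ^ (s.2.1 : ℕ) * s.2.2.1 * w.2 ^ (s.1 : ℕ)) = κ ^ (s.2.1 : ℕ) * s.2.2.1 := by
  constructor
  · rintro ⟨h1, h2⟩
    refine ⟨h1, fun s hs => ?_⟩
    have h3 := h2 (κ ^ (s.2.1 : ℕ) * s.2.2.1, κ ^ (s.2.1 : ℕ) * s.2.2.1, ((s.1 : ℕ) : ℤ))
      ⟨(κ ^ (s.2.1 : ℕ) * s.2.2.1, (s.1 : ℕ)), ⟨s, hs, rfl⟩, rfl⟩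
    simpa only [zpow_natCast] using h3
  · rintro ⟨h1, h2⟩
    refine ⟨h1, ?_⟩
    rintro t ⟨u, ⟨s, hs, rfl⟩, rfl⟩
    have h3 := h2 s hs
    simpa only [zpow_natCast] using h3

/-- the sets `L` for a pair `(τ, y)` -/
theorem set_iff {ℓ : ℕ} [Fact ℓ.Prime] (E₀ : Subgroup (MulAut V₀)) (σ : MulAut V₀)
    (a : Subgroup V₀) (ha : Nat.card a = ℓ) (κ : V₀) (hκ : κ ∈ a) (w : MulAut V₀ × V₀)
    (hw : w.1 ∈ E₀) (L : Set (SO.SS n V₀)) :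
    ((pL L = a ∧ (∀ s ∈ L, σ s.2.2.2 = s.2.2.1) ∧ aL κ L = a) ∧ w ∈ QL E₀ (LT (TL κ L))) ↔
      (L ⊆ TA σ a κ w.1 w.2 ∧ ¬ L ⊆ P1 (TA σ a κ w.1 w.2) ∧
        ¬ L ⊆ A1 κ (TA σ a κ w.1 w.2)) := by
  have hk : ∀ s : SO.SS n V₀, s.2.2.1 ∈ a → κ ^ (s.2.1 : ℕ) * s.2.2.1 ∈ a := fun s hs =>
    a.mul_mem (a.pow_mem hκ _) hs
  rw [ql_iff]
  constructor
  · rintro ⟨⟨h1, h2, h3⟩, -, h4⟩
    have h5 : ∀ s ∈ L, s.2.2.1 ∈ a := fun s hs => h1 ▸ mem_pL L s hs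
    have h6 : L ⊆ TA σ a κ w.1 w.2 := fun s hs => ⟨h5 s hs, h2 s hs, h4 s hs⟩
    refine ⟨h6, fun h => ?_, fun h => ?_⟩
    · exact (pL_iff (ℓ := ℓ) a ha L h5).1 h1 fun s hs => (h hs).2
    · exact (aL_iff (ℓ := ℓ) a ha κ L fun s hs => hk s (h5 s hs)).1 h3 fun s hs => (h hs).2
  · rintro ⟨h1, h2, h3⟩
    have h5 : ∀ s ∈ L, s.2.2.1 ∈ a := fun s hs => (h1 hs).1
    refine ⟨⟨?_, fun s hs => (h1 hs).2.1, ?_⟩, hw, fun s hs => (h1 hs).2.2⟩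
    · exact (pL_iff (ℓ := ℓ) a ha L h5).2 fun h => h2 fun s hs => ⟨h1 hs, h s hs⟩
    · exact (aL_iff (ℓ := ℓ) a ha κ L fun s hs => hk s (h5 s hs)).2 fun h =>
        h3 fun s hs => ⟨h1 hs, h s hs⟩

end gen

open Classical in
theorem fwa (hxy : HxyStmt) (hye : HyeStmt) (mbi : MbiStmt) : FwaStmt := by
  intro ℓ _ M _ hM hl V₀ G _ _ _ _ E₀ hF B hB D hD n m hP a ha κ hκ σ hσ F
  have : Fintype (SO.SS n V₀) := Fintype.ofFinite _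
  have : Fintype (MulAut V₀ × V₀) := Fintype.ofFinite _
  have hp : ℓ.Prime := Fact.out
  have hac : Nat.card a = ℓ := ha.1
  have hab : a ≠ ⊥ := by
    intro h
    rw [h, Subgroup.card_bot] at hac
    exact hp.one_lt.ne hac
  have e1 := hD.e1 a hab
  have e2 := hD.e2 a hab
  have hX : ∀ L : Set (SO.SS n V₀), aL κ L = a → HX B m a (tk B κ (D.et a)) L =
      ∑ w, if w ∈ QL E₀ (LT (TL κ L)) then wtE ℓ E₀ B D a κ w.1 w.2 else 0 := by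
    intro L hL
    rw [((hxy ℓ M hM V₀ G E₀ hF B hB.toSb n m hP L κ).2.2 a (D.et a) hκ e1.sup e2),
      hye ℓ M hM hl V₀ G E₀ hF B hB D hD n m hP a ha κ hκ (TL κ L) ?_, fif]
    rw [← hL]
    unfold aL
    congr 1
    ext x
    constructor
    · rintro ⟨t, ⟨s, hs, rfl⟩, rfl⟩
      exact ⟨s, hs, rfl⟩
    · rintro ⟨s, hs, rfl⟩
      exact ⟨_, ⟨s, hs, rfl⟩, rfl⟩
  have hBr : ∀ w : MulAut V₀ × V₀, w.1 ∈ E₀ → Br F κ (TA σ a κ w.1 w.2) =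
      ∑ L : Set (SO.SS n V₀), if ((pL L = a ∧ (∀ s ∈ L, σ s.2.2.2 = s.2.2.1) ∧ aL κ L = a) ∧
        w ∈ QL E₀ (LT (TL κ L))) then mob F L else 0 := by
    intro w hw
    have h1 : P1 (A1 κ (TA σ a κ w.1 w.2)) =
        (P1 (TA σ a κ w.1 w.2) ∩ A1 κ (TA σ a κ w.1 w.2) : Set (SO.SS n V₀)) := by
      ext s
      constructor
      · rintro ⟨⟨h1, h2⟩, h3⟩
        exact ⟨⟨h1, h3⟩, h1, h2⟩
      · rintro ⟨⟨h1, h2⟩, h3, h4⟩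
        exact ⟨⟨h1, h4⟩, h2⟩
    unfold Br
    rw [h1, ← mb2 mbi F (TA σ a κ w.1 w.2) _ _ (fun s hs => hs.1) (fun s hs => hs.1)]
    refine Finset.sum_congr rfl fun L _ => ?_
    exact if_congr (set_iff (ℓ := ℓ) E₀ σ a hac κ hκ w hw L).symm rfl rfl
  have hA : (∑ᶠ w ∈ {w : MulAut V₀ × V₀ | w.1 ∈ E₀}, wtE ℓ E₀ B D a κ w.1 w.2 *
      ((Br F κ (TA σ a κ w.1 w.2) : ℚ) : ℂ)) = ∑ L : Set (SO.SS n V₀),
        if (pL L = a ∧ (∀ s ∈ L, σ s.2.2.2 = s.2.2.1) ∧ aL κ L = a) then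
          ((mob F L : ℚ) : ℂ) * HX B m a (tk B κ (D.et a)) L else 0 := by
    rw [fif]
    have h1 : ∀ w : MulAut V₀ × V₀, (if w ∈ {w : MulAut V₀ × V₀ | w.1 ∈ E₀} then
        wtE ℓ E₀ B D a κ w.1 w.2 * ((Br F κ (TA σ a κ w.1 w.2) : ℚ) : ℂ) else 0) =
        ∑ L : Set (SO.SS n V₀), if ((pL L = a ∧ (∀ s ∈ L, σ s.2.2.2 = s.2.2.1) ∧
          aL κ L = a) ∧ w ∈ QL E₀ (LT (TL κ L))) then
          wtE ℓ E₀ B D a κ w.1 w.2 * ((mob F L : ℚ) : ℂ) else 0 := by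
      intro w
      by_cases hw : w.1 ∈ E₀
      · have hw' : w ∈ {w : MulAut V₀ × V₀ | w.1 ∈ E₀} := hw
        rw [if_pos hw', hBr w hw, Rat.cast_sum, Finset.mul_sum]
        refine Finset.sum_congr rfl fun L _ => ?_
        by_cases h : ((pL L = a ∧ (∀ s ∈ L, σ s.2.2.2 = s.2.2.1) ∧
          aL κ L = a) ∧ w ∈ QL E₀ (LT (TL κ L)))
        · rw [if_pos h, if_pos h]
        · rw [if_neg h, if_neg h, Rat.cast_zero, mul_zero]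
      · have hw' : w ∉ {w : MulAut V₀ × V₀ | w.1 ∈ E₀} := hw
        rw [if_neg hw']
        symm
        refine Finset.sum_eq_zero fun L _ => ?_
        exact if_neg fun h => hw ((ql_iff E₀ κ L w).1 h.2).1
    rw [Finset.sum_congr rfl fun w _ => h1 w, Finset.sum_comm]
    refine Finset.sum_congr rfl fun L _ => ?_
    by_cases h : (pL L = a ∧ (∀ s ∈ L, σ s.2.2.2 = s.2.2.1) ∧ aL κ L = a)
    · rw [if_pos h, hX L h.2.2, Finset.mul_sum]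
      refine Finset.sum_congr rfl fun w _ => ?_
      by_cases h2 : w ∈ QL E₀ (LT (TL κ L))
      · rw [if_pos ⟨h, h2⟩, if_pos h2, mul_comm]
      · rw [if_neg (fun h3 => h2 h3.2), if_neg h2, mul_zero]
    · rw [if_neg h]
      exact Finset.sum_eq_zero fun w _ => if_neg fun h3 => h h3.1
  rw [hA]
  unfold FWS
  rw [fif, fif, ← Finset.sum_add_distrib]
  refine Finset.sum_congr rfl fun L _ => ?_
  by_cases h1 : pL L = a ∧ ∀ s ∈ L, σ s.2.2.2 = s.2.2.1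
  · have h5 : ∀ s ∈ L, κ ^ (s.2.1 : ℕ) * s.2.2.1 ∈ a := fun s hs =>
      a.mul_mem (a.pow_mem hκ _) (h1.1 ▸ mem_pL L s hs)
    have h6 := aL_iff (ℓ := ℓ) a hac κ L h5
    have h1' : L ∈ {L : Set (SO.SS n V₀) | pL L = a ∧ ∀ s ∈ L, σ s.2.2.2 = s.2.2.1} := h1
    rw [if_pos h1']
    by_cases h7 : ∀ s ∈ L, κ ^ (s.2.1 : ℕ) * s.2.2.1 = 1
    · have h8 : L ∈ {L : Set (SO.SS n V₀) | pL L = a ∧ (∀ s ∈ L, σ s.2.2.2 = s.2.2.1) ∧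
        ∀ s ∈ L, κ ^ (s.2.1 : ℕ) * s.2.2.1 = 1} := ⟨h1.1, h1.2, h7⟩
      rw [if_pos h8, if_neg (fun h9 => h6.1 h9.2.2 h7), zero_add]
    · have h8 : L ∉ {L : Set (SO.SS n V₀) | pL L = a ∧ (∀ s ∈ L, σ s.2.2.2 = s.2.2.1) ∧
        ∀ s ∈ L, κ ^ (s.2.1 : ℕ) * s.2.2.1 = 1} := fun h => h7 h.2.2
      rw [if_neg h8, if_pos ⟨h1.1, h1.2, h6.2 h7⟩, add_zero]
  · have h1' : L ∉ {L : Set (SO.SS n V₀) | pL L = a ∧ ∀ s ∈ L, σ s.2.2.2 = s.2.2.1} := h1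
    have h8 : L ∉ {L : Set (SO.SS n V₀) | pL L = a ∧ (∀ s ∈ L, σ s.2.2.2 = s.2.2.1) ∧
        ∀ s ∈ L, κ ^ (s.2.1 : ℕ) * s.2.2.1 = 1} := fun h => h1 ⟨h.1, h.2.1⟩
    rw [if_neg h1', if_neg h8, if_neg (fun h => h1 ⟨h.1, h.2.1⟩), zero_add]

end Pool.Agent.PP.SE.H18
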