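import Pool.Agent.ASE.Stmts7
import Pool.Agent.Helper65_ASO.KM1

/-!
# Squad ASE, row KE1: the part modulo `ℓ` (after `Helper65_ASO/KM1.lean`)
-/

open scoped BigOperators

noncomputable section

namespace Pool.Agent.PP.SE.H18

open Pool.Agent.PP.SO.H65

theorem ke1 (rsl : SO.RslStmt) : Ke1Stmt := by
  intro ℓ _ hℓ V₀ _ _ E₀ hF D N z y k h
  classical
  have hp : ℓ.Prime := Fact.out
  have := Fintype.ofFinite V₀
  have hn : ¬ ℓ ∣ Nat.card E₀ := hF.cp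
  have hnR : (Nat.card E₀ : ℚ) ∈ SOR.Rl ℓ := natCast_mem _ _
  have hkR : (k : ℚ) ∈ SOR.Rl ℓ := intCast_mem _ _
  have hlR : (ℓ : ℚ) ∈ SOR.Rl ℓ := natCast_mem _ _
  -- the relation for a pair
  have hK : ∀ c d : V₀, c ≠ 1 → d ≠ 1 → Mm ℓ ((Nat.card E₀ : ℚ) * k - (D c + D d)) := by
    intro c d hc hd
    have hDR : D c + D d ∈ SOR.Rl ℓ := (SOR.Rl ℓ).add_mem (h.dr c) (h.dr d)
    refine Mm.cancel rsl ((SOR.Rl ℓ).sub_mem ((SOR.Rl ℓ).mul_mem hnR hkR) hDR) hn ?_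
    obtain ⟨q, hq, hs⟩ := h.sf c d hc hd
    have hS : Mm ℓ (∑ t ∈ Finset.Icc 1 (ℓ - 1), ∑ s ∈ Finset.Icc 1 (ℓ - 1), N (c ^ t) (d ^ s)) :=
      Mm.sum _ _ fun t ht => Mm.sum _ _ fun s hs =>
        h.n1 _ _ (pow_ne_one hF.ex hc ht) (pow_ne_one hF.ex hd hs)
    have h1 : (Nat.card E₀ : ℚ) * ((Nat.card E₀ : ℚ) * k - (D c + D d)) =
        (ℓ * (ℓ * q) - ∑ t ∈ Finset.Icc 1 (ℓ - 1), ∑ s ∈ Finset.Icc 1 (ℓ - 1),
          N (c ^ t) (d ^ s)) - ℓ * ((Nat.card E₀ : ℚ) * (D c + D d)) := by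
      linear_combination hs
    rw [h1]
    exact ((Mm.ell ((SOR.Rl ℓ).mul_mem hlR hq)).sub hS).sub
      (Mm.ell ((SOR.Rl ℓ).mul_mem hnR hDR))
  -- the sum
  obtain ⟨q, hq, hh⟩ := h.hh
  have hfin : ∑ᶠ c ∈ {c : V₀ | c ≠ 1}, D c = ∑ c ∈ Finset.univ.erase (1 : V₀), D c := by
    rw [finsum_mem_eq_finite_toFinset_sum _ (Set.toFinite _)]
    refine Finset.sum_congr ?_ fun _ _ => rfl
    ext c
    simp
  rw [hfin] at hh
  have hcard : ((Finset.univ.erase (1 : V₀)).card : ℚ) = (ℓ : ℚ) ^ 2 - 1 := by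
    rw [Finset.card_erase_of_mem (Finset.mem_univ _), Finset.card_univ,
      ← Nat.card_eq_fintype_card, hF.cd]
    have h1 : 1 ≤ ℓ ^ 2 := Nat.one_le_pow _ _ hp.pos
    push_cast [h1]
    ring
  have hsum : Mm ℓ (∑ c ∈ Finset.univ.erase (1 : V₀),
      ((Nat.card E₀ : ℚ) * k - (D c + D c))) :=
    Mm.sum _ _ fun c hc => hK c c (Finset.ne_of_mem_erase hc) (Finset.ne_of_mem_erase hc)
  rw [Finset.sum_sub_distrib, Finset.sum_const, nsmul_eq_mul, hcard,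
    Finset.sum_add_distrib] at hsum
  have hnk : Mm ℓ ((Nat.card E₀ : ℚ) * k) := by
    have h1 : (Nat.card E₀ : ℚ) * k = (((ℓ : ℚ) ^ 2 - 1) * ((Nat.card E₀ : ℚ) * k) -
        (∑ c ∈ Finset.univ.erase (1 : V₀), D c + ∑ c ∈ Finset.univ.erase (1 : V₀), D c)) +
        ℓ * (2 * ℓ * q) - ℓ * (ℓ * ((Nat.card E₀ : ℚ) * k)) := by
      linear_combination (2 : ℚ) * hh
    rw [h1]
    have h2R : (2 : ℚ) * ℓ * q ∈ SOR.Rl ℓ := by
      have h3 : ((2 : ℕ) : ℚ) ∈ SOR.Rl ℓ := natCast_mem _ _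
      exact (SOR.Rl ℓ).mul_mem ((SOR.Rl ℓ).mul_mem (by exact_mod_cast h3) hlR) hq
    exact (hsum.add (Mm.ell h2R)).sub
      (Mm.ell ((SOR.Rl ℓ).mul_mem hlR ((SOR.Rl ℓ).mul_mem hnR hkR)))
  have hk : Mm ℓ (k : ℚ) := Mm.cancel rsl hkR hn hnk
  constructor
  · have h1 : ((k : ℚ) : ZMod ℓ) = 0 := ((rsl ℓ).2.1 _ hkR).2 hk
    rw [Rat.cast_intCast] at h1
    exact (ZMod.intCast_zmod_eq_zero_iff_dvd k ℓ).1 h1
  · intro c hc
    have h1 := hnk.sub (hK c c hc hc)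
    have h2 : ((2 : ℕ) : ℚ) * D c = (Nat.card E₀ : ℚ) * k -
        ((Nat.card E₀ : ℚ) * k - (D c + D c)) := by
      push_cast
      ring
    rw [← h2] at h1
    refine Mm.cancel rsl (h.dr c) (fun h3 => ?_) h1
    exact hℓ ((Nat.prime_dvd_prime_iff_eq hp Nat.prime_two).1 h3)

end Pool.Agent.PP.SE.H18
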